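import Pool.Agent.N783.CF.Stm

/-!
# Project CF: a nontrivial element of the inertia group (helper492)
-/

set_option autoImplicit false

open NumberField Pool.Agent.N783.CF

namespace Pool.Agent.N492.CF

theorem map_le_sq {R S : Type} [CommRing R] [IsDedekindDomain R] [CommRing S] [IsDedekindDomain S]
    [Algebra R S] (𝔭 : Ideal R) (D : R) (x : S) (𝔓 : Ideal S) (hD : D ∈ 𝔭) (hD2 : D ∉ 𝔭 ^ 2)
    (hx : x ^ 2 = algebraMap R S D ∨ x ^ 2 = -algebraMap R S D) (hP : 𝔓.IsPrime) (hP0 : 𝔓 ≠ ⊥)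
    (hc : 𝔓.comap (algebraMap R S) = 𝔭) : 𝔭.map (algebraMap R S) ≤ 𝔓 ^ 2 := by
  have hPp : Prime 𝔓 := Ideal.prime_of_isPrime hP0 hP
  obtain ⟨J, hJ⟩ : 𝔭 ∣ Ideal.span {D} := Ideal.dvd_span_singleton.2 hD
  have h1 : Ideal.span {x} ^ 2 = 𝔭.map (algebraMap R S) * J.map (algebraMap R S) := by
    rw [← Ideal.map_mul, ← hJ, Ideal.map_span, Set.image_singleton, Ideal.span_singleton_pow]
    rcases hx with hx | hx
    · rw [hx]
    · rw [hx, Ideal.span_singleton_neg]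
  have h2 : ¬ 𝔓 ∣ J.map (algebraMap R S) := by
    intro h
    have h3 : J ≤ 𝔭 := by
      rw [← hc]
      exact Ideal.le_comap_of_map_le (Ideal.dvd_iff_le.1 h)
    apply hD2
    have h4 : Ideal.span {D} ≤ 𝔭 ^ 2 := by
      rw [hJ, sq]
      exact Ideal.mul_mono_right h3
    exact h4 (Ideal.mem_span_singleton_self D)
  have h3 : 𝔓 ∣ 𝔭.map (algebraMap R S) := by
    rw [Ideal.dvd_iff_le, Ideal.map_le_iff_le_comap, hc]
  have h4 : 𝔓 ∣ Ideal.span {x} := by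
    refine hPp.dvd_of_dvd_pow (n := 2) ?_
    rw [h1]
    exact h3.mul_right _
  have h5 : 𝔓 ^ 2 ∣ 𝔭.map (algebraMap R S) * J.map (algebraMap R S) := by
    rw [← h1]
    exact pow_dvd_pow_of_dvd h4 2
  exact Ideal.dvd_iff_le.1 (hPp.pow_dvd_of_dvd_mul_right 2 h2 h5)

theorem t_INR : S_INR := by
  intro F N _ _ _ _ _ _ 𝔭 D x 𝔓 hp hp0 hD hD2 hx hP hc
  have hP0 : 𝔓 ≠ ⊥ := by
    rintro rfl
    apply hp0
    rw [← hc]
    exact Ideal.comap_bot_of_injective _ (FaithfulSMul.algebraMap_injective (𝓞 F) (𝓞 N))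
  have hL : 𝔓.LiesOver 𝔭 := ⟨hc.symm⟩
  have h1 := map_le_sq 𝔭 D x 𝔓 hD hD2 hx hP hP0 hc
  have h2 : 𝔭.ramificationIdx' 𝔓 ≠ 1 :=
    (Ideal.ramificationIdx'_ne_one_iff (h1.trans (Ideal.pow_le_self two_ne_zero))).2 h1
  rw [Ideal.ramificationIdx'_eq_ramificationIdx 𝔭 𝔓 hp0] at h2
  have h3 := Ideal.card_inertia_eq_ramificationIdxIn (G := N ≃ₐ[F] N) 𝔭 𝔓
  rw [Ideal.ramificationIdxIn_eq_ramificationIdx 𝔭 𝔓 (N ≃ₐ[F] N)] at h3
  have h4 : 𝔓.inertia (N ≃ₐ[F] N) ≠ ⊥ := by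
    intro h
    apply h2
    rw [← h3, h]
    exact Subgroup.card_bot
  obtain ⟨⟨σ, hσ⟩, hσ1⟩ := Subgroup.ne_bot_iff_exists_ne_one.1 h4
  refine ⟨σ, fun h => hσ1 (Subtype.ext h), fun y => ⟨σ • y - y, hσ y, ?_⟩⟩
  rfl

end Pool.Agent.N492.CF
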